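import Mathlib
import Pool.Agent.Q262.RL.Key5

/-!
# Lehmer's conjecture at level `s` for polynomials whose root field has a large subfield

Let `P` be a monic irreducible integer polynomial with at most `s` roots outside the unit circle. Fix a
prime number `p` and a power `q` of `p`. Let `F` be a number field (Galois over `ℚ` or not) with an
automorphism `τ` and a set `T` of prime ideals above `p`, such that `x ^ q ≡ τ x` modulo `P` for all
the integers `x` of `F` and all `P` in `T`, and such that the sum of the local degrees of the members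
of `T` is at least `[F : ℚ] / B`. Nothing is assumed on the ramification of `F`, and nothing on the
other prime ideals. If an extension `K` of degree at most `C` of the field generated by a root of `P`
contains such a field `F` with `[K : F] ≤ C [F : ℚ] ^ κ`, then `M(P) = 1` or `M(P) > 1 + ε`, where `ε`
depends on `p`, `q`, `B`, `C`, `κ` and the level `s` only. If `T` contains all the prime ideals above
`p`, and their ramification indices are equal up to a factor of at most `B` (for instance, if `F` is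
Galois over `ℚ`), then `log (2 [F : ℚ] D) exp (√(3 log q log D)) ≤ C [F : ℚ]`, `D = [K : F]`, suffices.

The role of the level: for general polynomials the method needs that all powers `x ^ (p ^ a)` of a
root `x` generate the same field. If at most `s` roots are outside the unit circle then the degree of
`ℚ(x)` over the smallest of the fields `ℚ(x ^ j)` is at most `s`, and the norm of `x` to this field has
all its powers as generators.
-/

set_option autoImplicit false

open NumberField Module Polynomial IntermediateField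

namespace Pool.Agent.Results.MP_30f4fc_nt.LargeSubfields

/-- The number field `F` has an automorphism `τ` and a set `T` of prime ideals above `p` with
`x ^ q ≡ τ x` modulo `P` for all the integers `x` of `F` and all `P` in `T`, such that the sum of the
local degrees (products of ramification index and residue degree) of the members of `T` is at least
`[F : ℚ] / B`. (For `B = 1` this means that all the prime ideals above `p` are in `T`.) -/
def HasFrobenius (p q B : ℕ) (F : Type) [Field F] [NumberField F] : Prop :=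
  ∃ (τ : F ≃+* F) (T : Finset (Ideal (𝓞 F))),
    (∀ P ∈ T, P ∈ (Ideal.span {(p : ℤ)}).primesOver (𝓞 F) ∧
      ∀ x : 𝓞 F, x ^ q - RingOfIntegers.mapRingHom (τ : F →+* F) x ∈ P) ∧
    finrank ℚ F ≤ B * ∑ P ∈ T, P.ramificationIdx ℤ * P.inertiaDeg ℤ

/-- All the ramification indices of `F` above `p` are at most `E`. -/
def RamificationAtMost (p E : ℕ) (F : Type) [Field F] [NumberField F] : Prop :=
  ∀ P ∈ (Ideal.span {(p : ℤ)}).primesOver (𝓞 F), P.ramificationIdx ℤ ≤ E

/-- The ramification indices of `F` above `p` are equal up to a factor of at most `B`. -/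
def ComparableRamification (p B : ℕ) (F : Type) [Field F] [NumberField F] : Prop :=
  ∀ P ∈ (Ideal.span {(p : ℤ)}).primesOver (𝓞 F), ∀ Q ∈ (Ideal.span {(p : ℤ)}).primesOver (𝓞 F),
    P.ramificationIdx ℤ ≤ B * Q.ramificationIdx ℤ

/-- The condition on an extension of relative degree `D` of `F`. -/
def IsLarge (p e B C κ : ℕ) (F : Type) [Field F] [NumberField F] (D : ℕ) : Prop :=
  (HasFrobenius p (p ^ e) B F ∧ D ≤ C * finrank ℚ F ^ κ) ∨
  (HasFrobenius p (p ^ e) 1 F ∧ ComparableRamification p B F ∧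
    Real.log (2 * (finrank ℚ F * D)) * Real.exp (√(3 * (e * Real.log p) * Real.log D)) ≤
      C * finrank ℚ F)

/-- The number of the complex roots of `P` outside the closed unit disc, with multiplicity. -/
noncomputable def rootsOutside (P : ℤ[X]) : ℕ :=
  ((P.map (Int.castRingHom ℂ)).roots.filter fun z => 1 < ‖z‖).card

/-- The Mahler measure of `P`. -/
noncomputable def mahler (P : ℤ[X]) : ℝ := (P.map (Int.castRingHom ℂ)).mahlerMeasure

/-- The number field `K` is an extension of degree at most `C` of the field generated by a root of the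
irreducible polynomial `P`. -/
def ExtendsRootField (C : ℕ) (P : ℤ[X]) (K : Type) [Field K] [NumberField K] : Prop :=
  ∃ x : K, aeval x P = 0 ∧ finrank ℚ K ≤ C * P.natDegree

/-- `10 p ^ (2 e + 1) E exp (√(3 e log p log D)) / log p` -/
noncomputable def cost (p e E D : ℕ) : ℝ :=
  10 * (p : ℝ) ^ (2 * e + 1) * E * Real.exp (√(3 * (e * Real.log p) * Real.log D)) / Real.log p

lemma eq_minpoly {K : Type} [Field K] [NumberField K] {P : ℤ[X]} (hP : P.Monic) (hI : Irreducible P)
    {x : K} (hx : aeval x P = 0) : P = minpoly ℤ x := by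
  have hxi : IsIntegral ℤ x := ⟨P, hP, by rwa [aeval_def] at hx⟩
  have h1 : Irreducible (P.map (algebraMap ℤ ℚ)) :=
    (hP.irreducible_iff_irreducible_map_fraction_map (K := ℚ)).1 hI
  have h2 : P.map (algebraMap ℤ ℚ) = minpoly ℚ x :=
    minpoly.eq_of_irreducible_of_monic h1 (by rw [aeval_map_algebraMap]; exact hx) (hP.map _)
  rw [minpoly.isIntegrallyClosed_eq_field_fractions' ℚ hxi] at h2
  exact Polynomial.map_injective (algebraMap ℤ ℚ) (algebraMap ℤ ℚ).injective_int h2

/-- The data of a root: the field it generates. -/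
lemma setup {K : Type} [Field K] [NumberField K] {P : ℤ[X]} (hP : P.Monic) (hI : Irreducible P)
    {x : K} (hx : aeval x P = 0) : ∃ (y : 𝓞 ℚ⟮x⟯), ((y : ℚ⟮x⟯) : K) = x ∧
      ℚ⟮(y : ℚ⟮x⟯)⟯ = ⊤ ∧ P = minpoly ℤ (y : ℚ⟮x⟯) ∧ finrank ℚ ℚ⟮x⟯ = P.natDegree := by
  have hxi : IsIntegral ℤ x := ⟨P, hP, by rwa [aeval_def] at hx⟩
  have hxq : IsIntegral ℚ x := hxi.tower_top
  set g : ℚ⟮x⟯ := AdjoinSimple.gen ℚ x with hg
  have hgx : algebraMap ℚ⟮x⟯ K g = x := AdjoinSimple.algebraMap_gen ℚ x
  have hgi : IsIntegral ℤ g := by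
    have h1 : IsIntegral ℤ (algebraMap ℚ⟮x⟯ K g) := by rw [hgx]; exact hxi
    exact (isIntegral_algebraMap_iff (algebraMap ℚ⟮x⟯ K).injective).mp h1
  have hg0 : aeval g P = 0 := by
    apply (algebraMap ℚ⟮x⟯ K).injective
    rw [map_zero, ← aeval_algebraMap_apply, hgx, hx]
  have hPg : P = minpoly ℤ g := eq_minpoly hP hI hg0
  have hdeg : finrank ℚ ℚ⟮x⟯ = P.natDegree := by
    rw [IntermediateField.adjoin.finrank hxq, minpoly.isIntegrallyClosed_eq_field_fractions' ℚ hxi,
      (minpoly.monic hxi).natDegree_map, ← eq_minpoly hP hI hx]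
  refine ⟨⟨g, hgi⟩, hgx, ?_, hPg, hdeg⟩
  rw [Field.primitive_element_iff_minpoly_natDegree_eq]
  show (minpoly ℚ g).natDegree = _
  rw [minpoly.isIntegrallyClosed_eq_field_fractions' ℚ hgi, (minpoly.monic hgi).natDegree_map,
    ← hPg, hdeg]

lemma roots_eq {K : Type} [Field K] [NumberField K] (y : 𝓞 K) (hy : ℚ⟮(y : K)⟯ = ⊤) :
    ((minpoly ℤ (y : K)).map (Int.castRingHom ℂ)).roots =
      (Finset.univ : Finset (K →ₐ[ℚ] ℂ)).val.map fun τ => τ (y : K) := by
  have hc := Pool.Agent.Y399.RD.cinj_of_adjoin hy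
  have hα : IsIntegral ℤ (y : K) := y.isIntegral_coe
  have hpmap : (minpoly ℤ (y : K)).map (Int.castRingHom ℂ) =
      ∏ τ : K →ₐ[ℚ] ℂ, (X - C (τ (y : K))) := by
    rw [← Pool.Agent.H388SL.minpoly_map_eq hc,
      minpoly.isIntegrallyClosed_eq_field_fractions' ℚ hα, Polynomial.map_map]
    rfl
  have h2 := Polynomial.roots_multiset_prod_X_sub_C
    ((Finset.univ : Finset (K →ₐ[ℚ] ℂ)).val.map fun τ => τ (y : K))
  rw [Multiset.map_map] at h2
  rw [hpmap]
  exact h2

lemma card_outside {K : Type} [Field K] [NumberField K] (y : 𝓞 K) (hy : ℚ⟮(y : K)⟯ = ⊤)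
    [DecidablePred fun σ : K →+* ℂ => 1 < ‖σ (y : K)‖] :
    (Finset.univ.filter fun σ : K →+* ℂ => 1 < ‖σ (y : K)‖).card ≤
      rootsOutside (minpoly ℤ (y : K)) := by
  classical
  unfold rootsOutside
  rw [roots_eq y hy, Multiset.filter_map, Multiset.card_map]
  rw [show (Multiset.filter ((fun z : ℂ => 1 < ‖z‖) ∘ fun τ : K →ₐ[ℚ] ℂ => τ (y : K))
    (Finset.univ : Finset (K →ₐ[ℚ] ℂ)).val).card =
    (Finset.univ.filter fun τ : K →ₐ[ℚ] ℂ => 1 < ‖τ (y : K)‖).card by
      simp only [Finset.card_def, Finset.filter_val, Function.comp_def]]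
  refine Finset.card_le_card_of_injOn (fun σ => σ.toRatAlgHom) ?_ ?_
  · intro σ hσ
    rw [Finset.mem_coe, Finset.mem_filter] at hσ ⊢
    exact ⟨Finset.mem_univ _, hσ.2⟩
  · intro σ _ σ' _ h
    ext z
    exact DFunLike.congr_fun h z

/-- The Mahler measure of a polynomial with a large subfield of an extension of its root field. -/
lemma step (s C : ℕ) (μ : ℝ) {K : Type} [Field K] [NumberField K] {P : ℤ[X]}
    (hP : P.Monic) (hI : Irreducible P) (hs : rootsOutside P ≤ s) {x : K} (hx : aeval x P = 0)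
    (hC : finrank ℚ K ≤ C * P.natDegree)
    (hkey : ∀ (M : IntermediateField ℚ K) (β : 𝓞 M), finrank M K ≤ s * C → β ≠ 0 →
      (∀ m : ℕ, 0 < m → β ^ m ≠ 1) → (∀ i : ℕ, 0 < i → ℚ⟮(β : M) ^ i⟯ = ⊤) →
      μ ≤ Real.log ((minpoly ℤ (β : M)).map (Int.castRingHom ℂ)).mahlerMeasure) :
    mahler P = 1 ∨ μ ≤ (s * C : ℕ) * Real.log (mahler P) := by
  classical
  obtain ⟨y, hyx, hytop, hPy, hdeg⟩ := setup hP hI hx
  have hlog : Real.log (mahler P) = Pool.Agent.H388SL.lam (y : ℚ⟮x⟯) := by
    unfold mahler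
    rw [hPy]
    exact Pool.Agent.Y399.MG.log_mahler y hytop
  have hM1 : 1 ≤ mahler P := by
    unfold mahler
    refine Polynomial.one_le_mahlerMeasure_of_ne_zero ?_
    exact hP.ne_zero
  have hpos : 0 < mahler P := one_pos.trans_le hM1
  by_cases h1 : mahler P = 1
  · exact Or.inl h1
  right
  have hlam0 : Pool.Agent.H388SL.lam (y : ℚ⟮x⟯) ≠ 0 := by
    intro h0
    rw [h0] at hlog
    apply h1
    rcases Real.log_eq_zero.1 hlog with h | h | h
    · exact absurd h hpos.ne'
    · exact h
    · linarith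
  have hbd : ∀ σ : ℚ⟮x⟯ →ₐ[ℚ] ℂ, ‖σ (y : ℚ⟮x⟯)‖ ≤ mahler P := by
    intro σ
    have h2 : Real.log (max 1 ‖σ (y : ℚ⟮x⟯)‖) ≤ Pool.Agent.H388SL.lam (y : ℚ⟮x⟯) :=
      Finset.single_le_sum (f := fun σ : ℚ⟮x⟯ →ₐ[ℚ] ℂ => Real.log (max 1 ‖σ (y : ℚ⟮x⟯)‖))
        (fun _ _ => Real.log_nonneg (le_max_left _ _)) (Finset.mem_univ σ)
    rw [← hlog] at h2
    have h3 : (0 : ℝ) < max 1 ‖σ (y : ℚ⟮x⟯)‖ := lt_of_lt_of_le one_pos (le_max_left _ _)
    exact (le_max_right _ _).trans ((Real.log_le_log_iff h3 hpos).1 h2)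
  have hx0 : x ≠ 0 := by
    intro h
    apply hlam0
    have h4 : (y : ℚ⟮x⟯) = 0 := by
      apply (algebraMap ℚ⟮x⟯ K).injective
      rw [map_zero]
      exact hyx.trans h
    unfold Pool.Agent.H388SL.lam
    refine Finset.sum_eq_zero fun σ _ => ?_
    rw [h4, map_zero, norm_zero, max_eq_left zero_le_one, Real.log_one]
  have hroot : ∀ m : ℕ, 0 < m → x ^ m ≠ 1 := by
    intro m hm h
    apply hlam0
    have h4 : (y : ℚ⟮x⟯) ^ m = 1 := by
      apply (algebraMap ℚ⟮x⟯ K).injective
      rw [map_one, map_pow]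
      have h5 : algebraMap ℚ⟮x⟯ K (y : ℚ⟮x⟯) = x := hyx
      rw [h5, h]
    unfold Pool.Agent.H388SL.lam
    refine Finset.sum_eq_zero fun σ _ => ?_
    have h5 : ‖σ (y : ℚ⟮x⟯)‖ ^ m = 1 := by
      rw [← norm_pow, ← map_pow, h4, map_one, norm_one]
    have h6 : ‖σ (y : ℚ⟮x⟯)‖ = 1 := (pow_eq_one_iff_of_nonneg (norm_nonneg _) hm.ne').1 h5
    rw [h6, max_self, Real.log_one]
  have hxi : IsIntegral ℤ x := ⟨P, hP, by rwa [aeval_def] at hx⟩
  have hres : ∀ τ : K →+* ℂ, (τ.comp (algebraMap ℚ⟮x⟯ K)) (y : ℚ⟮x⟯) = τ x := by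
    intro τ
    show τ ((y : ℚ⟮x⟯) : K) = τ x
    rw [hyx]
  set S : Finset (ℚ⟮x⟯ →+* ℂ) := Finset.univ.filter fun σ => 1 < ‖σ (y : ℚ⟮x⟯)‖ with hS
  have hScard : S.card ≤ s := by
    refine (card_outside y hytop).trans ?_
    rw [← hPy]
    exact hs
  have hn : finrank ℚ⟮x⟯ K ≤ C := by
    have hd : 0 < P.natDegree := by rw [← hdeg]; exact finrank_pos
    have h7 : P.natDegree * finrank ℚ⟮x⟯ K ≤ P.natDegree * C := by
      rw [← hdeg, Module.finrank_mul_finrank ℚ ℚ⟮x⟯ K, hdeg, mul_comm P.natDegree C]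
      exact hC
    exact Nat.le_of_mul_le_mul_left h7 hd
  obtain ⟨M, β, h1', h2', h3', h4', h5'⟩ := Pool.Agent.Y399.MG.transfer S x s C (mahler P) hx0 hxi
    hroot hM1 (fun τ hτ => by
      by_contra hcon
      push Not at hcon
      apply hτ
      rw [hS, Finset.mem_filter]
      refine ⟨Finset.mem_univ _, ?_⟩
      rw [hres τ]
      exact hcon)
    (fun τ => by
      rw [← hres τ]
      exact hbd (τ.comp (algebraMap ℚ⟮x⟯ K)).toRatAlgHom) hScard hn
  have h6' : ℚ⟮(β : M)⟯ = ⊤ := by
    have := h4' 1 one_pos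
    rwa [pow_one] at this
  have h7' := hkey M β h1' h2' h3' h4'
  rw [Pool.Agent.Y399.MG.log_mahler β h6'] at h7'
  exact h7'.trans h5'

/-- **Lehmer's conjecture at level `s` for polynomials whose root field has a large subfield.**

1. For every prime number `p`, all `e > 0`, `B`, `C`, `κ` and every level `s` there is `ε > 0` such that
   `M(P) = 1` or `M(P) > 1 + ε` for all monic irreducible integer polynomials `P` with at most `s`
   roots outside the unit circle, provided that an extension `K` of degree at most `C` of the field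
   generated by a root of `P` contains a number field `F` with `IsLarge p e B C κ F [K : F]`.
2. If `HasFrobenius p (p ^ e) 1 F` and the ramification indices of `F` above `p` are at most `E`,
   then `M(P) = 1` or `[F : ℚ] ≤ C cost(p, e, E, [K : F]) log M(P)` for these `P`, without any
   condition on the number of roots outside the unit circle.
3. If there is a set of prime ideals of `F` above `p`, of residue degrees at most `f`, whose local
   degrees have a sum of at least `[F : ℚ] / B`, then `HasFrobenius p (p ^ f !) B F`.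
4. If `F` is Galois over `ℚ`, then `ComparableRamification p 1 F`. -/
theorem result :
    (∀ (p e B C κ s : ℕ), p.Prime → 0 < e → ∃ ε : ℝ, 0 < ε ∧ ∀ P : ℤ[X], P.Monic → Irreducible P →
      rootsOutside P ≤ s →
      ∀ (F K : Type) [Field F] [NumberField F] [Field K] [NumberField K] [Algebra F K],
        ExtendsRootField C P K → IsLarge p e B C κ F (finrank F K) →
        mahler P = 1 ∨ 1 + ε < mahler P) ∧
    (∀ (p e E C : ℕ), p.Prime → 0 < e → ∀ P : ℤ[X], P.Monic → Irreducible P →
      ∀ (F K : Type) [Field F] [NumberField F] [Field K] [NumberField K] [Algebra F K],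
        ExtendsRootField C P K → HasFrobenius p (p ^ e) 1 F → RamificationAtMost p E F →
        mahler P = 1 ∨
          (finrank ℚ F : ℝ) ≤ C * cost p e E (finrank F K) * Real.log (mahler P)) ∧
    (∀ (F : Type) [Field F] [NumberField F] (p f B : ℕ), p.Prime → ∀ T : Finset (Ideal (𝓞 F)),
      (∀ P ∈ T, P ∈ (Ideal.span {(p : ℤ)}).primesOver (𝓞 F) ∧ P.inertiaDeg ℤ ≤ f) →
      finrank ℚ F ≤ B * ∑ P ∈ T, P.ramificationIdx ℤ * P.inertiaDeg ℤ →
      HasFrobenius p (p ^ f.factorial) B F) ∧
    (∀ (F : Type) [Field F] [NumberField F] (p : ℕ), p.Prime → IsGalois ℚ F →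
      ComparableRamification p 1 F) := by
  refine ⟨?_, ?_, ?_, ?_⟩
  · intro p e B C κ s hp he
    obtain ⟨μ1, hμ1, hkey1⟩ := Pool.Agent.Q262.RL.key4 hp he B κ (s * C) C
    obtain ⟨μ2, hμ2, hkey2⟩ := Pool.Agent.Q262.RL.key2 hp he B (s * C) (C : ℝ)
    set μ : ℝ := min μ1 μ2 with hμdef
    have hμ : 0 < μ := lt_min hμ1 hμ2
    have hN : (0 : ℝ) < ((s * C : ℕ) : ℝ) + 1 := by positivity
    refine ⟨μ / (2 * (((s * C : ℕ) : ℝ) + 1)), by positivity, ?_⟩
    intro P hP hI hs F K _ _ _ _ _ hK hF
    obtain ⟨x, hx, hC⟩ := hK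
    rcases step s C μ hP hI hs hx hC (fun M β h1 h2 h3 h4 => by
        rcases hF with ⟨hF1, hF2⟩ | ⟨hF1, hF2, hF3⟩
        · exact (min_le_left _ _).trans (hkey1 F K M β hF1 hF2 h1 h2 h3
            fun i => h4 _ (pow_pos hp.pos i))
        · exact (min_le_right _ _).trans (hkey2 F K M β (finrank F K)
            (Pool.Agent.Q262.RL.all_of_mass hp hF1) hF2 le_rfl hF3 h1 h2 h3
            fun i => h4 _ (pow_pos hp.pos i))) with h | h
    · exact Or.inl h
    right
    have hM1 : 1 ≤ mahler P := Polynomial.one_le_mahlerMeasure_of_ne_zero hP.ne_zero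
    have hpos : 0 < mahler P := one_pos.trans_le hM1
    have hlog0 : 0 ≤ Real.log (mahler P) := Real.log_nonneg hM1
    have h8 : μ ≤ (((s * C : ℕ) : ℝ) + 1) * Real.log (mahler P) := by
      refine h.trans ?_
      exact mul_le_mul_of_nonneg_right (by linarith) hlog0
    have h9 : μ / (((s * C : ℕ) : ℝ) + 1) ≤ Real.log (mahler P) := by
      rw [div_le_iff₀ hN, mul_comm]
      exact h8
    have h10 : μ / (((s * C : ℕ) : ℝ) + 1) + 1 ≤ mahler P := by
      have h11 := Real.add_one_le_exp (Real.log (mahler P))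
      rw [Real.exp_log hpos] at h11
      linarith
    have h12 : μ / (2 * (((s * C : ℕ) : ℝ) + 1)) < μ / (((s * C : ℕ) : ℝ) + 1) := by
      apply div_lt_div_of_pos_left hμ hN
      linarith
    linarith
  · intro p e E C hp he P hP hI F K _ _ _ _ _ hK hF hE
    obtain ⟨x, hx, hC⟩ := hK
    obtain ⟨y, hyx, hytop, hPy, hdeg⟩ := setup hP hI hx
    have hlog : Real.log (mahler P) = Pool.Agent.H388SL.lam (y : ℚ⟮x⟯) := by
      unfold mahler
      rw [hPy]
      exact Pool.Agent.Y399.MG.log_mahler y hytop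
    have hM1 : 1 ≤ mahler P := Polynomial.one_le_mahlerMeasure_of_ne_zero hP.ne_zero
    have hlog0 : 0 ≤ Real.log (mahler P) := Real.log_nonneg hM1
    have hpos : 0 < mahler P := one_pos.trans_le hM1
    by_cases h1 : mahler P = 1
    · exact Or.inl h1
    right
    have hlam0 : Pool.Agent.H388SL.lam (y : ℚ⟮x⟯) ≠ 0 := by
      intro h0
      rw [h0] at hlog
      apply h1
      rcases Real.log_eq_zero.1 hlog with h | h | h
      · exact absurd h hpos.ne'
      · exact h
      · linarith
    have hy0 : y ≠ 0 := by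
      intro h
      apply hlam0
      unfold Pool.Agent.H388SL.lam
      refine Finset.sum_eq_zero fun σ _ => ?_
      rw [h]
      simp
    have hyr : ∀ m : ℕ, 0 < m → y ^ m ≠ 1 := by
      intro m hm h
      apply hlam0
      have h4 : (y : ℚ⟮x⟯) ^ m = 1 := by
        have := congrArg (fun z : 𝓞 ℚ⟮x⟯ => (z : ℚ⟮x⟯)) h
        simpa using this
      unfold Pool.Agent.H388SL.lam
      refine Finset.sum_eq_zero fun σ _ => ?_
      have h5 : ‖σ (y : ℚ⟮x⟯)‖ ^ m = 1 := by
        rw [← norm_pow, ← map_pow, h4, map_one, norm_one]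
      have h6 : ‖σ (y : ℚ⟮x⟯)‖ = 1 := (pow_eq_one_iff_of_nonneg (norm_nonneg _) hm.ne').1 h5
      rw [h6, max_self, Real.log_one]
    have hn : finrank ℚ⟮x⟯ K ≤ C := by
      have hd : 0 < P.natDegree := by rw [← hdeg]; exact finrank_pos
      have h7 : P.natDegree * finrank ℚ⟮x⟯ K ≤ P.natDegree * C := by
        rw [← hdeg, Module.finrank_mul_finrank ℚ ℚ⟮x⟯ K, hdeg, mul_comm P.natDegree C]
        exact hC
      exact Nat.le_of_mul_le_mul_left h7 hd
    have h2 := Pool.Agent.Q262.RL.ram_mahler (F := F) (K := K) hp he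
      (Pool.Agent.Q262.RL.all_of_mass hp hF) hE y hy0 hyr hytop
    rw [← hPy] at h2
    change (finrank ℚ F : ℝ) ≤ Pool.Agent.Q262.RL.rcost p e E (finrank F K) *
      (finrank ℚ⟮x⟯ K * Real.log (mahler P)) at h2
    have hcost : Pool.Agent.Q262.RL.rcost p e E (finrank F K) = cost p e E (finrank F K) := by
      unfold cost Pool.Agent.Q262.RL.rcost
      ring
    have hc0 : 0 ≤ cost p e E (finrank F K) := by
      unfold cost
      have : 0 ≤ Real.log p := Real.log_natCast_nonneg p
      positivity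
    rw [hcost] at h2
    refine h2.trans ?_
    have h13 : (finrank ℚ⟮x⟯ K : ℝ) ≤ C := by exact_mod_cast hn
    calc cost p e E (finrank F K) * (finrank ℚ⟮x⟯ K * Real.log (mahler P))
        ≤ cost p e E (finrank F K) * (C * Real.log (mahler P)) :=
          mul_le_mul_of_nonneg_left (mul_le_mul_of_nonneg_right h13 hlog0) hc0
      _ = C * cost p e E (finrank F K) * Real.log (mahler P) := by ring
  · intro F _ _ p f B hp T hT hN
    exact Pool.Agent.Q262.RL.mass_of_res hp T hT hN
  · intro F _ _ p hp hG P hP Q hQ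
    have := hP.1
    have := hP.2
    have := hQ.1
    have := hQ.2
    rw [one_mul]
    exact (Ideal.ramificationIdx_eq_of_isGaloisGroup (Ideal.span {(p : ℤ)}) P Q Gal(F/ℚ)).le

end Pool.Agent.Results.MP_30f4fc_nt.LargeSubfields
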